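import Pool.Agent.H3.Y.St2

/-! Sequences of five vertices and five-sets with an odd number of edges. -/

set_option autoImplicit false
open Finset

namespace Pool.Agent.H54.L2

open Pool.Agent.H3.Y

theorem inside_inst {V : Type} [inst : DecidableEq V] (H : Finset (Finset V)) (S : Finset V) :
    inside H S = (H.filter fun e => e ⊆ S).card := by
  have h : inst = fun a b : V => Classical.propDecidable (a = b) := Subsingleton.elim _ _
  subst h
  rfl

theorem inside_eq {V : Type} [DecidableEq V] (H : Finset (Finset V)) (hH : FourGraph H)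
    (S : Finset V) (hS : S.card = 5) :
    inside H S = ∑ x ∈ S, if S.erase x ∈ H then 1 else 0 := by
  rw [inside_inst, ← card_filter]
  symm
  refine card_bij (fun x _ => S.erase x) ?_ ?_ ?_
  · intro x hx
    rw [mem_filter] at hx
    refine mem_filter.2 ⟨hx.2, erase_subset _ _⟩
  · intro x hx y hy h
    rw [mem_filter] at hx hy
    by_contra hne
    have h1 : x ∈ S.erase y := mem_erase.2 ⟨hne, hx.1⟩
    rw [← h] at h1
    exact notMem_erase x S h1
  · intro e he
    obtain ⟨h1, h2⟩ := mem_filter.1 he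
    have h3 : (S \ e).card = 1 := by
      rw [card_sdiff_of_subset h2, hS, hH e h1]
    obtain ⟨x, hx⟩ := card_eq_one.1 h3
    have hxS : x ∈ S \ e := by
      rw [hx]
      exact mem_singleton_self x
    have h4 : S.erase x = e := by
      ext y
      rw [mem_erase]
      constructor
      · rintro ⟨h5, h6⟩
        by_contra h7
        have h8 : y ∈ S \ e := mem_sdiff.2 ⟨h6, h7⟩
        rw [hx, mem_singleton] at h8
        exact h5 h8
      · intro h5
        refine ⟨?_, h2 h5⟩
        rintro rfl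
        exact (mem_sdiff.1 hxS).2 h5
    refine ⟨x, mem_filter.2 ⟨(mem_sdiff.1 hxS).1, ?_⟩, h4⟩
    rw [h4]
    exact h1

theorem key {V : Type} [DecidableEq V] (H : Finset (Finset V)) (hH : FourGraph H)
    (g : Fin 5 → V) (hg : Function.Injective g) (S : Finset V) (hS : S = univ.image g) :
    ind H (g 0) (g 1) (g 2) (g 3) + ind H (g 0) (g 1) (g 2) (g 4) +
      ind H (g 0) (g 1) (g 3) (g 4) + ind H (g 0) (g 2) (g 3) (g 4) +
      ind H (g 1) (g 2) (g 3) (g 4) = inside H S := by
  have hc : S.card = 5 := by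
    rw [hS, card_image_of_injective _ hg, card_univ, Fintype.card_fin]
  rw [inside_eq H hH S hc]
  have h1 : ∑ x ∈ S, (if S.erase x ∈ H then 1 else 0) =
      ∑ i : Fin 5, (if ((univ.erase i).image g) ∈ H then 1 else 0) := by
    conv_lhs => rw [hS]
    rw [sum_image (fun i _ j _ h => hg h)]
    refine sum_congr rfl fun i _ => ?_
    have e : (univ.image g).erase (g i) = (univ.erase i).image g := by
      rw [image_erase hg]
    rw [e]
  rw [h1, Fin.sum_univ_five]
  have e0 : (univ.erase (0 : Fin 5)) = {1, 2, 3, 4} := by decide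
  have e1 : (univ.erase (1 : Fin 5)) = {0, 2, 3, 4} := by decide
  have e2 : (univ.erase (2 : Fin 5)) = {0, 1, 3, 4} := by decide
  have e3 : (univ.erase (3 : Fin 5)) = {0, 1, 2, 4} := by decide
  have e4 : (univ.erase (4 : Fin 5)) = {0, 1, 2, 3} := by decide
  rw [e0, e1, e2, e3, e4]
  simp only [image_insert, image_singleton]
  unfold ind
  omega

theorem odd : S_ODD := by
  classical
  intro V _ _ H hH
  set G : V × V × V × V × V → ℕ := fun p =>
    (ind H p.1 p.2.1 p.2.2.1 p.2.2.2.1 + ind H p.1 p.2.1 p.2.2.1 p.2.2.2.2 +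
      ind H p.1 p.2.1 p.2.2.2.1 p.2.2.2.2 + ind H p.1 p.2.2.1 p.2.2.2.1 p.2.2.2.2 +
      ind H p.2.1 p.2.2.1 p.2.2.2.1 p.2.2.2.2) % 2 with hG
  have e1 : ∑ a, ∑ b, ∑ c, ∑ d, ∑ e,
      (ind H a b c d + ind H a b c e + ind H a b d e + ind H a c d e + ind H b c d e) % 2 =
      ∑ p : V × V × V × V × V, G p := by
    rw [Fintype.sum_prod_type]
    refine sum_congr rfl fun a _ => ?_
    rw [Fintype.sum_prod_type]
    refine sum_congr rfl fun b _ => ?_
    rw [Fintype.sum_prod_type]
    refine sum_congr rfl fun c _ => ?_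
    rw [Fintype.sum_prod_type]
  rw [e1]
  let F : V × V × V × V × V → Finset V := fun p =>
    {p.1, p.2.1, p.2.2.1, p.2.2.2.1, p.2.2.2.2}
  set O : Finset (Finset V) := ((univ : Finset V).powersetCard 5).filter fun S => Odd (inside H S)
    with hO
  have e2 : ∑ p ∈ (univ : Finset (V × V × V × V × V)).filter (fun p => F p ∈ O), G p ≤
      ∑ p : V × V × V × V × V, G p := sum_le_sum_of_subset (filter_subset _ _)
  refine le_trans ?_ e2
  have e3 := sum_fiberwise_of_maps_to (s := (univ : Finset (V × V × V × V × V)).filter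
      (fun p => F p ∈ O)) (t := O) (g := F) (fun p hp => (mem_filter.1 hp).2) G
  rw [← e3]
  have e4 : 120 * odd5 H = ∑ S ∈ O, 120 := by
    rw [sum_const, smul_eq_mul, mul_comm]
    have h5 : odd5 H = O.card := by
      unfold odd5
      rw [hO]
    rw [h5]
  rw [e4]
  refine sum_le_sum fun S hS => ?_
  have hS5 : S.card = 5 := (mem_powersetCard.1 (mem_filter.1 hS).1).2
  have hodd : Odd (inside H S) := (mem_filter.1 hS).2
  let s : Fin 5 ≃ S := (S.equivFinOfCardEq hS5).symm
  let T : Equiv.Perm (Fin 5) → V × V × V × V × V := fun σ =>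
    ((s (σ 0) : V), (s (σ 1) : V), (s (σ 2) : V), (s (σ 3) : V), (s (σ 4) : V))
  have hTinj : Function.Injective T := by
    intro σ τ h
    have hh : ∀ i, (s (σ i) : V) = s (τ i) := by
      intro i
      have h0 : ((s (σ 0) : V), (s (σ 1) : V), (s (σ 2) : V), (s (σ 3) : V), (s (σ 4) : V)) =
        ((s (τ 0) : V), (s (τ 1) : V), (s (τ 2) : V), (s (τ 3) : V), (s (τ 4) : V)) := h
      simp only [Prod.mk.injEq] at h0
      obtain ⟨a0, a1, a2, a3, a4⟩ := h0
      fin_cases i
      · exact a0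
      · exact a1
      · exact a2
      · exact a3
      · exact a4
    ext i
    have h1 := s.injective (Subtype.ext (hh i))
    rw [h1]
  have himg : ∀ σ : Equiv.Perm (Fin 5), S = univ.image (fun i => (s (σ i) : V)) := by
    intro σ
    ext x
    rw [mem_image]
    constructor
    · intro hx
      refine ⟨σ.symm (s.symm ⟨x, hx⟩), mem_univ _, ?_⟩
      rw [Equiv.apply_symm_apply, Equiv.apply_symm_apply]
    · rintro ⟨i, _, rfl⟩
      exact (s (σ i)).2
  have hF : ∀ σ, F (T σ) = S := by
    intro σ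
    rw [himg σ]
    show ({(s (σ 0) : V), (s (σ 1) : V), (s (σ 2) : V), (s (σ 3) : V), (s (σ 4) : V)} :
      Finset V) = _
    have e5 : (univ : Finset (Fin 5)) = {0, 1, 2, 3, 4} := by decide
    rw [e5]
    simp only [image_insert, image_singleton]
  have hval : ∀ σ, G (T σ) = 1 := by
    intro σ
    have hinj : Function.Injective (fun i => (s (σ i) : V)) := fun i j h =>
      σ.injective (s.injective (Subtype.ext h))
    have h1 := key H hH (fun i => (s (σ i) : V)) hinj S (himg σ)
    show (ind H (s (σ 0) : V) (s (σ 1)) (s (σ 2)) (s (σ 3)) +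
      ind H (s (σ 0) : V) (s (σ 1)) (s (σ 2)) (s (σ 4)) +
      ind H (s (σ 0) : V) (s (σ 1)) (s (σ 3)) (s (σ 4)) +
      ind H (s (σ 0) : V) (s (σ 2)) (s (σ 3)) (s (σ 4)) +
      ind H (s (σ 1) : V) (s (σ 2)) (s (σ 3)) (s (σ 4))) % 2 = 1
    have h2 : (ind H (s (σ 0) : V) (s (σ 1)) (s (σ 2)) (s (σ 3)) +
      ind H (s (σ 0) : V) (s (σ 1)) (s (σ 2)) (s (σ 4)) +
      ind H (s (σ 0) : V) (s (σ 1)) (s (σ 3)) (s (σ 4)) +
      ind H (s (σ 0) : V) (s (σ 2)) (s (σ 3)) (s (σ 4)) +
      ind H (s (σ 1) : V) (s (σ 2)) (s (σ 3)) (s (σ 4))) = inside H S := h1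
    rw [h2]
    exact Nat.odd_iff.1 hodd
  have hsub : (univ.image T) ⊆ ((univ : Finset (V × V × V × V × V)).filter
      (fun p => F p ∈ O)).filter (fun p => F p = S) := by
    intro p hp
    obtain ⟨σ, _, rfl⟩ := mem_image.1 hp
    refine mem_filter.2 ⟨mem_filter.2 ⟨mem_univ _, ?_⟩, hF σ⟩
    rw [hF σ]
    exact hS
  refine le_trans ?_ (sum_le_sum_of_subset hsub)
  rw [sum_image (fun σ _ τ _ h => hTinj h), sum_congr rfl fun σ _ => hval σ, sum_const,
    card_univ, Fintype.card_perm, Fintype.card_fin, smul_eq_mul, mul_one]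
  decide

end Pool.Agent.H54.L2
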