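import Pool.Agent.H3.Y.St

/-! Modules B and C: counting lemmas, the limit and the consequences. -/

set_option autoImplicit false
open Finset Filter Topology

namespace Pool.Agent.H54.L2

open Pool.Agent.H3.Y

theorem codeg_eq {V : Type} [Fintype V] [inst : DecidableEq V] (H : Finset (Finset V)) (T : Finset V) :
    codeg H T = ((univ : Finset V).filter fun v => v ∉ T ∧ insert v T ∈ H).card := by
  have h : inst = fun a b : V => Classical.propDecidable (a = b) := Subsingleton.elim _ _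
  subst h
  rfl

theorem sum_ind {V : Type} [Fintype V] [DecidableEq V] (H : Finset (Finset V)) (hH : FourGraph H)
    {a b c : V} (T : Finset V) (hT : T = {a, b, c}) (hab : a ≠ b) (hac : a ≠ c) (hbc : b ≠ c) :
    ∑ d, ind H a b c d = codeg H T := by
  rw [codeg_eq]
  unfold ind
  rw [sum_boole]
  rw [Nat.cast_id]
  congr 1
  ext d
  rw [mem_filter, mem_filter]
  have h3 : ({a, b, c} : Finset V).card = 3 := card_eq_three.2 ⟨a, b, c, hab, hac, hbc, rfl⟩
  have he : ({a, b, c, d} : Finset V) = insert d T := by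
    rw [hT]
    ext x
    simp only [mem_insert, mem_singleton]
    tauto
  rw [he]
  constructor
  · rintro ⟨-, h⟩
    refine ⟨mem_univ _, fun hd => ?_, h⟩
    rw [insert_eq_of_mem hd] at h
    have := hH _ h
    rw [hT, h3] at this
    omega
  · rintro ⟨-, -, h⟩
    exact ⟨mem_univ _, h⟩

theorem cnt1 : S_CNT1 := by
  intro V _ _ H hH
  have e1 : S3 (ind H) = ∑ p : V × V × V, (∑ d, ind H p.1 p.2.1 p.2.2 d) ^ 2 := by
    unfold S3
    rw [Fintype.sum_prod_type]
    refine sum_congr rfl fun a _ => ?_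
    rw [Fintype.sum_prod_type]
  rw [e1]
  have e2 : ∑ p ∈ (univ : Finset (V × V × V)).filter
        (fun p => ({p.1, p.2.1, p.2.2} : Finset V) ∈ (univ : Finset V).powersetCard 3),
        (∑ d, ind H p.1 p.2.1 p.2.2 d) ^ 2 ≤
      ∑ p : V × V × V, (∑ d, ind H p.1 p.2.1 p.2.2 d) ^ 2 :=
    sum_le_sum_of_subset (filter_subset _ _)
  refine le_trans ?_ e2
  have e3 := sum_fiberwise_of_maps_to (s := (univ : Finset (V × V × V)).filter
      (fun p => ({p.1, p.2.1, p.2.2} : Finset V) ∈ (univ : Finset V).powersetCard 3))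
      (t := (univ : Finset V).powersetCard 3)
      (g := fun p : V × V × V => ({p.1, p.2.1, p.2.2} : Finset V))
      (fun p hp => (mem_filter.1 hp).2) (fun p => (∑ d, ind H p.1 p.2.1 p.2.2 d) ^ 2)
  rw [← e3]
  unfold co2
  rw [mul_sum]
  refine sum_le_sum fun T hT => ?_
  have hT3 := (mem_powersetCard.1 hT).2
  obtain ⟨a, b, c, hab, hac, hbc, hTe⟩ := card_eq_three.1 hT3
  have six : ({(a, b, c), (a, c, b), (b, a, c), (b, c, a), (c, a, b), (c, b, a)} :
      Finset (V × V × V)).card = 6 := by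
    rw [card_insert_of_notMem, card_insert_of_notMem, card_insert_of_notMem,
      card_insert_of_notMem, card_insert_of_notMem, card_singleton]
    all_goals
      simp only [mem_insert, mem_singleton, Prod.mk.injEq, not_or, not_and]
      simp only [hab, hac, hbc, hab.symm, hac.symm, hbc.symm,
        not_false_eq_true, and_self, implies_true, IsEmpty.forall_iff]
  have hsub : ({(a, b, c), (a, c, b), (b, a, c), (b, c, a), (c, a, b), (c, b, a)} :
      Finset (V × V × V)) ⊆ ((univ : Finset (V × V × V)).filter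
      (fun p => ({p.1, p.2.1, p.2.2} : Finset V) ∈ (univ : Finset V).powersetCard 3)).filter
      (fun p : V × V × V => ({p.1, p.2.1, p.2.2} : Finset V) = T) := by
    intro p hp
    have hpe : ({p.1, p.2.1, p.2.2} : Finset V) = T := by
      rw [hTe]
      simp only [mem_insert, mem_singleton] at hp
      rcases hp with rfl | rfl | rfl | rfl | rfl | rfl <;>
        first | rfl | (ext x; simp only [mem_insert, mem_singleton]; tauto)
    rw [mem_filter, mem_filter]
    refine ⟨⟨mem_univ _, ?_⟩, hpe⟩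
    rw [hpe]
    exact hT
  refine le_trans ?_ (sum_le_sum_of_subset hsub)
  have hval : ∀ p ∈ ({(a, b, c), (a, c, b), (b, a, c), (b, c, a), (c, a, b), (c, b, a)} :
      Finset (V × V × V)), (∑ d, ind H p.1 p.2.1 p.2.2 d) ^ 2 = codeg H T ^ 2 := by
    intro p hp
    have hpe := (mem_filter.1 (hsub hp)).2
    simp only [mem_insert, mem_singleton] at hp
    rcases hp with rfl | rfl | rfl | rfl | rfl | rfl
    · rw [sum_ind H hH T hpe.symm hab hac hbc]
    · rw [sum_ind H hH T hpe.symm hac hab hbc.symm]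
    · rw [sum_ind H hH T hpe.symm hab.symm hbc hac]
    · rw [sum_ind H hH T hpe.symm hbc hab.symm hac.symm]
    · rw [sum_ind H hH T hpe.symm hac.symm hbc.symm hab]
    · rw [sum_ind H hH T hpe.symm hbc.symm hac.symm hab.symm]
  rw [sum_congr rfl hval, sum_const, six, smul_eq_mul]

theorem sum_codeg {V : Type} [Fintype V] [DecidableEq V] (H : Finset (Finset V))
    (hH : FourGraph H) : ∑ T ∈ (univ : Finset V).powersetCard 3, codeg H T = 4 * H.card := by
  have h1 : ∑ T ∈ (univ : Finset V).powersetCard 3, codeg H T =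
      ∑ T ∈ (univ : Finset V).powersetCard 3,
        ∑ v : V, (if v ∉ T ∧ insert v T ∈ H then 1 else 0) := by
    refine sum_congr rfl fun T _ => ?_
    rw [codeg_eq, card_filter]
  have h2 : ∀ v : V, ∑ T ∈ (univ : Finset V).powersetCard 3,
      (if v ∉ T ∧ insert v T ∈ H then 1 else 0) = ∑ e ∈ H, (if v ∈ e then 1 else 0) := by
    intro v
    rw [← card_filter, ← card_filter]
    refine card_bij' (fun T _ => insert v T) (fun e _ => e.erase v) ?_ ?_ ?_ ?_
    · intro T hT
      rw [mem_filter] at hT ⊢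
      exact ⟨hT.2.2, mem_insert_self _ _⟩
    · intro e he
      rw [mem_filter] at he ⊢
      rw [mem_powersetCard]
      refine ⟨⟨subset_univ _, ?_⟩, notMem_erase _ _, ?_⟩
      · rw [card_erase_of_mem he.2, hH _ he.1]
      · rw [insert_erase he.2]
        exact he.1
    · intro T hT
      rw [mem_filter] at hT
      exact erase_insert hT.2.1
    · intro e he
      rw [mem_filter] at he
      exact insert_erase he.2
  rw [h1, sum_comm, sum_congr rfl fun v _ => h2 v, sum_comm]
  have h3 : ∀ e ∈ H, ∑ v : V, (if v ∈ e then 1 else 0) = 4 := by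
    intro e he
    rw [← card_filter, filter_mem_eq_inter, univ_inter, hH e he]
  rw [sum_congr rfl h3, sum_const, smul_eq_mul, mul_comm]

theorem cnt2 : S_CNT2 := by
  intro V _ _ H hH
  rw [← sum_codeg H hH]
  have h := sq_sum_le_card_mul_sum_sq (s := (univ : Finset V).powersetCard 3)
    (f := fun T => (codeg H T : ℝ))
  rw [card_powersetCard, card_univ] at h
  unfold co2
  exact_mod_cast h

theorem choose_three_le (n : ℕ) : 6 * n.choose 3 ≤ n ^ 3 := by
  have h := Nat.choose_le_pow_div (α := ℝ) 3 n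
  have h2 : ((Nat.factorial 3 : ℕ) : ℝ) = 6 := by norm_num [Nat.factorial]
  rw [h2, le_div_iff₀ (by norm_num)] at h
  have h3 : (n.choose 3 : ℝ) * 6 ≤ (n : ℝ) ^ 3 := h
  have h4 : n.choose 3 * 6 ≤ n ^ 3 := by exact_mod_cast h3
  omega

theorem edge : S_EDGE := by
  intro hU n H hH hK
  have h1 := cnt2 (Fin n) H hH
  rw [Fintype.card_fin] at h1
  have h2 := hU n H hH hK
  have h3 := choose_three_le n
  have h4 : 6 * n.choose 3 * (384 * co2 H) ≤ n ^ 3 * (31 * n ^ 5) := Nat.mul_le_mul h3 h2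
  have h5 : n ^ 3 * (31 * n ^ 5) = 31 * n ^ 8 := by ring
  have h6 : 6 * n.choose 3 * (384 * co2 H) = 2304 * (n.choose 3 * co2 H) := by ring
  rw [h5, h6] at h4
  have h7 : 36864 * H.card ^ 2 = 2304 * (4 * H.card) ^ 2 := by ring
  rw [h7]
  exact (Nat.mul_le_mul_left 2304 h1).trans h4

theorem gap : S_GAP := by
  intro hU n H hH hK hg
  have h2 := hU n H hH hK
  have h3 := choose_three_le n
  have h1 : ∀ T ∈ (univ : Finset (Fin n)).powersetCard 3,
      10 * n * codeg H T ≤ 8 * codeg H T ^ 2 + 3 * n ^ 2 := by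
    intro T hT
    rcases hg T (mem_powersetCard.1 hT).2 with h | h
    · nlinarith
    · nlinarith
  have h4 := sum_le_sum h1
  rw [← mul_sum, sum_codeg H hH, sum_add_distrib, ← mul_sum, sum_const, card_powersetCard,
    card_univ, Fintype.card_fin, smul_eq_mul] at h4
  have h5 : ∑ T ∈ (univ : Finset (Fin n)).powersetCard 3, codeg H T ^ 2 = co2 H := rfl
  rw [h5] at h4
  -- 40 n |H| ≤ 8 co2 + 3 n² C(n,3)
  have h6 : 1920 * n * H.card ≤ 55 * n ^ 5 := by
    have h7 : 6 * n.choose 3 * n ^ 2 ≤ n ^ 3 * n ^ 2 := Nat.mul_le_mul_right _ h3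
    have h8 : n ^ 3 * n ^ 2 = n ^ 5 := by ring
    rw [h8] at h7
    nlinarith
  rcases Nat.eq_zero_or_pos n with h0 | h0
  · subst h0
    have : H = ∅ := by
      rw [eq_empty_iff_forall_notMem]
      intro e he
      have h := hH e he
      have h' := card_le_univ e
      rw [h, Fintype.card_fin] at h'
      omega
    rw [this]
    simp
  · have h9 : (5 * n) * (384 * H.card) ≤ (5 * n) * (11 * n ^ 4) := by
      calc (5 * n) * (384 * H.card) = 1920 * n * H.card := by ring
        _ ≤ 55 * n ^ 5 := h6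
        _ = (5 * n) * (11 * n ^ 4) := by ring
    exact Nat.le_of_mul_le_mul_left h9 (by omega)

theorem choose_three_cast (n : ℕ) : (n.choose 3 : ℝ) = n * (n - 1) * (n - 2) / 6 := by
  rcases Nat.lt_or_ge n 2 with h | h
  · interval_cases n <;> norm_num [Nat.choose]
  · have h1 := Nat.choose_succ_right_eq n 2
    have h2 : (n.choose 3 : ℝ) * 3 = (n.choose 2 : ℝ) * (n - 2) := by
      have h3 : ((n.choose 3 * (2 + 1) : ℕ) : ℝ) = ((n.choose 2 * (n - 2) : ℕ) : ℝ) := by
        rw [h1]
      push_cast [Nat.cast_sub h] at h3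
      linarith
    rw [Nat.cast_choose_two] at h2
    linarith

theorem ratio_tendsto :
    Tendsto (fun n : ℕ => (n : ℝ) ^ 3 / (n.choose 3 : ℝ)) atTop (𝓝 6) := by
  have h1 : Tendsto (fun n : ℕ => (1 : ℝ) / n) atTop (𝓝 0) := tendsto_one_div_atTop_nhds_zero_nat
  have h2 : Tendsto (fun n : ℕ => 6 / ((1 - 1 * ((1 : ℝ) / n)) * (1 - 2 * ((1 : ℝ) / n)))) atTop
      (𝓝 (6 / ((1 - 1 * 0) * (1 - 2 * 0)))) := by
    apply Tendsto.div tendsto_const_nhds
    · exact (tendsto_const_nhds.sub (h1.const_mul 1)).mul (tendsto_const_nhds.sub (h1.const_mul 2))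
    · norm_num
  have h3 : (6 : ℝ) / ((1 - 1 * 0) * (1 - 2 * 0)) = 6 := by norm_num
  rw [h3] at h2
  refine h2.congr' ?_
  filter_upwards [eventually_ge_atTop 3] with n hn
  rw [choose_three_cast]
  have hn' : (3 : ℝ) ≤ n := by exact_mod_cast hn
  have a1 : (n : ℝ) ≠ 0 := by linarith
  have a2 : (n : ℝ) - 1 ≠ 0 := by linarith
  have a3 : (n : ℝ) - 2 ≠ 0 := by linarith
  have a4 : (1 - 1 * ((1 : ℝ) / n)) = (n - 1) / n := by field_simp
  have a5 : (1 - 2 * ((1 : ℝ) / n)) = (n - 2) / n := by field_simp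
  rw [a4, a5]
  field_simp

theorem lim : S_LIM := by
  classical
  intro hL hU
  obtain ⟨C, hC⟩ := hL
  have up : ∀ n : ℕ, 384 * exco2 n ≤ 31 * n ^ 5 := by
    intro n
    have h : exco2 n ≤ 31 * n ^ 5 / 384 := by
      unfold exco2
      refine Finset.sup_le fun H hH => ?_
      rw [mem_filter] at hH
      rw [Nat.le_div_iff_mul_le (by norm_num), mul_comm]
      exact hU n H hH.2.1 hH.2.2
    have h2 := Nat.mul_div_le (31 * n ^ 5) 384
    exact (Nat.mul_le_mul_left 384 h).trans h2
  have low : ∀ n : ℕ, 31 * n ^ 5 ≤ 384 * exco2 n + C * n ^ 4 := by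
    intro n
    obtain ⟨H, h1, h2, h3⟩ := hC n
    have h4 : co2 H ≤ exco2 n := by
      unfold exco2
      refine Finset.le_sup (f := co2) ?_
      rw [mem_filter]
      exact ⟨mem_univ _, h1, h2⟩
    omega
  have hr := ratio_tendsto
  have hr0 : Tendsto (fun n : ℕ => (1 : ℝ) / n) atTop (𝓝 0) := tendsto_one_div_atTop_nhds_zero_nat
  have u1 : Tendsto (fun n : ℕ => 31 / 384 * ((n : ℝ) ^ 3 / (n.choose 3 : ℝ))) atTop
      (𝓝 (31 / 64)) := by
    have := hr.const_mul (31 / 384 : ℝ)
    have e : (31 / 384 : ℝ) * 6 = 31 / 64 := by norm_num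
    rw [e] at this
    exact this
  have l1 : Tendsto (fun n : ℕ => 31 / 384 * ((n : ℝ) ^ 3 / (n.choose 3 : ℝ)) -
      (C : ℝ) / 384 * (((n : ℝ) ^ 3 / (n.choose 3 : ℝ)) * (1 / n))) atTop (𝓝 (31 / 64)) := by
    have := u1.sub ((hr.mul hr0).const_mul ((C : ℝ) / 384))
    simpa using this
  refine tendsto_of_tendsto_of_tendsto_of_le_of_le' l1 u1 ?_ ?_
  · filter_upwards [eventually_ge_atTop 3] with n hn
    have hn0 : (0 : ℝ) < n := by
      have : (3 : ℝ) ≤ n := by exact_mod_cast hn
      linarith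
    have hc : (0 : ℝ) < n.choose 3 := by exact_mod_cast Nat.choose_pos hn
    have h : (31 : ℝ) * n ^ 5 ≤ 384 * exco2 n + C * n ^ 4 := by exact_mod_cast low n
    rw [le_div_iff₀ (by positivity)]
    have e : (31 / 384 * ((n : ℝ) ^ 3 / (n.choose 3 : ℝ)) -
        (C : ℝ) / 384 * (((n : ℝ) ^ 3 / (n.choose 3 : ℝ)) * (1 / n))) *
        ((n.choose 3 : ℝ) * (n : ℝ) ^ 2) = (31 * n ^ 5 - C * n ^ 4) / 384 := by
      field_simp
    rw [e]
    linarith
  · filter_upwards [eventually_ge_atTop 3] with n hn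
    have hn0 : (0 : ℝ) < n := by
      have : (3 : ℝ) ≤ n := by exact_mod_cast hn
      linarith
    have hc : (0 : ℝ) < n.choose 3 := by exact_mod_cast Nat.choose_pos hn
    have h : (384 : ℝ) * exco2 n ≤ 31 * n ^ 5 := by exact_mod_cast up n
    rw [div_le_iff₀ (by positivity)]
    have e : 31 / 384 * ((n : ℝ) ^ 3 / (n.choose 3 : ℝ)) *
        ((n.choose 3 : ℝ) * (n : ℝ) ^ 2) = 31 * n ^ 5 / 384 := by
      field_simp
    rw [e]
    linarith

end Pool.Agent.H54.L2
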