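import Pool.Agent.H54.L2.Cnt
import Pool.Agent.H3.Y.St2

/-! The number of edges, the codegree squares and the triples of middle codegree. -/

set_option autoImplicit false
open Finset Filter Topology

namespace Pool.Agent.H54.L2

open Pool.Agent.H3.Y

theorem mix : S_MIX := by
  classical
  intro n H hH
  have h3 := choose_three_le n
  have h1 : ∀ T ∈ (univ : Finset (Fin n)).powersetCard 3,
      80 * n * codeg H T ≤ 64 * codeg H T ^ 2 + 24 * n ^ 2 +
        (if Fintype.card (Fin n) < 2 * codeg H T ∧ 4 * codeg H T < 3 * Fintype.card (Fin n)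
          then n ^ 2 else 0) := by
    intro T _
    rw [Fintype.card_fin]
    split_ifs with h
    · have : (0 : ℤ) ≤ (8 * (codeg H T : ℤ) - 5 * n) ^ 2 := sq_nonneg _
      have h' : (80 : ℤ) * n * codeg H T ≤ 64 * (codeg H T : ℤ) ^ 2 + 24 * n ^ 2 + n ^ 2 := by
        nlinarith
      exact_mod_cast h'
    · rw [add_zero]
      rcases Nat.lt_or_ge n (2 * codeg H T) with h5 | h5
      · have h6 : 3 * n ≤ 4 * codeg H T := by
          by_contra h7
          exact h ⟨h5, by omega⟩
        nlinarith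
      · nlinarith
  have h4 := sum_le_sum h1
  rw [← mul_sum, sum_codeg H hH, sum_add_distrib, sum_add_distrib, ← mul_sum, sum_const,
    card_powersetCard, card_univ, Fintype.card_fin, smul_eq_mul] at h4
  have h5 : ∑ T ∈ (univ : Finset (Fin n)).powersetCard 3, codeg H T ^ 2 = co2 H := rfl
  have h6 : ∑ T ∈ (univ : Finset (Fin n)).powersetCard 3,
      (if n < 2 * codeg H T ∧ 4 * codeg H T < 3 * n then n ^ 2 else 0) = mid H * n ^ 2 := by
    rw [← sum_filter, sum_const, smul_eq_mul]
    congr 1
    unfold mid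
    rw [Fintype.card_fin]
  rw [h5, h6] at h4
  have h7 : 6 * n.choose 3 * n ^ 2 ≤ n ^ 3 * n ^ 2 := Nat.mul_le_mul_right _ h3
  have e1 : n ^ 3 * n ^ 2 = n ^ 5 := by ring
  rw [e1] at h7
  have e2 : n ^ 2 * mid H = mid H * n ^ 2 := by ring
  rw [e2]
  nlinarith

end Pool.Agent.H54.L2
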